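import Pool.Agent.T2H62.SUab

set_option autoImplicit false

/-!
# Upper bounds for the number of the primes of the two families in almost all short intervals
-/

namespace Pool.Agent.Results.MP_4b1228_nt.AlmostAllShortUpper

open Finset Filter Topology

/-- `p` is in the set `𝒜` of the question (Ankeny, Chowla, Hasse). -/
def InA (p : ℕ) : Prop := p.Prime ∧ ∃ q n : ℕ, q.Prime ∧ 1 < n ∧ p = (2 * q * n) ^ 2 + 1

/-- `p` is in the set `ℬ` of the question (Lang). -/
def InB (p : ℕ) : Prop := p.Prime ∧ ∃ q n : ℕ, q.Prime ∧ 1 ≤ n ∧ p = ((2 * n + 1) * q) ^ 2 + 4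

open Classical in
/-- The number of the integers `m` in `(N, N + H]` with `m ^ 2 + 1` in `𝒜`, plus the number of those with `m ^ 2 + 4`
in `ℬ`. -/
noncomputable def count (N H : ℕ) : ℕ :=
  ((Ioc N (N + H)).filter (fun m => InA (m ^ 2 + 1))).card + ((Ioc N (N + H)).filter (fun m => InB (m ^ 2 + 4))).card

open Classical in
/-- **The primes of the two families in almost all short intervals.** There is `L > 0`, the product over the odd
primes `p` of `1 - (-1/p) / (p - 1)`, such that for all `0 < h ≤ 1`, `1 / 2 ≤ t < 1` and `δ, ε > 0` and all large `X`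
the inequality `count N (X ^ h) ≤ (4 / t + δ) L X ^ h / log X` holds for all but at most `X ^ (2 t - h + ε)` of the
integers `1 ≤ N ≤ X`. -/
theorem result : ∃ L : ℝ, 0 < L ∧
    Tendsto (fun x : ℕ => ∏ p ∈ (Finset.range (x + 1)).filter (fun p => p.Prime ∧ p ≠ 2),
      (1 - (jacobiSym (-1) p : ℝ) / ((p : ℝ) - 1))) atTop (𝓝 L) ∧
    ∀ h t δ ε : ℝ, 0 < h → h ≤ 1 → 1 / 2 ≤ t → t < 1 → 0 < δ → 0 < ε →
      ∀ᶠ X : ℕ in atTop, (((Icc 1 X).filter (fun N : ℕ =>
        (4 / t + δ) * (L * ((X : ℝ) ^ h / Real.log X)) <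
          (count N ⌊(X : ℝ) ^ h⌋₊ : ℝ))).card : ℝ) ≤ (X : ℝ) ^ (2 * t - h + ε) := by
  obtain ⟨L, hL, h1, h2⟩ := Pool.Agent.T2H62.SUab.main
  refine ⟨L, hL, ?_, ?_⟩
  · have h3 := h1.comp (tendsto_add_atTop_nat 1)
    refine h3.congr (fun x => ?_)
    rfl
  · intro h t δ ε a1 a2 a3 a4 a5 a6
    filter_upwards [h2 h t δ ε a1 a2 a3 a4 a5 a6] with X hX
    exact hX

end Pool.Agent.Results.MP_4b1228_nt.AlmostAllShortUpper
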