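import Pool.Agent.T2H62.CompAB

set_option autoImplicit false

/-!
# Almost primes of the two families in narrow progressions, in almost all very short intervals
-/

namespace Pool.Agent.Results.MP_4b1228_nt.AlmostPrimeProgressions

open Finset Filter

/-- `e = false`: `m = 2 q n` with `q` prime and `n > 1`, and `m ^ 2 + 1` is a product of at most `r` primes, all of
them at least `w`. `e = true`: `m = (2 n + 1) q` with `q` prime and `n ≥ 1`, and `m ^ 2 + 4` is a product of at most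
`r` primes, all of them at least `w`. -/
def Arg (e : Bool) (r : ℕ) (w : ℝ) (m : ℕ) : Prop :=
  if e then (∃ q n : ℕ, q.Prime ∧ 1 ≤ n ∧ m = (2 * n + 1) * q) ∧ (m ^ 2 + 4).primeFactorsList.length ≤ r ∧
    ∀ p : ℕ, p.Prime → p ∣ m ^ 2 + 4 → w ≤ p
  else (∃ q n : ℕ, q.Prime ∧ 1 < n ∧ m = 2 * q * n) ∧ (m ^ 2 + 1).primeFactorsList.length ≤ r ∧
    ∀ p : ℕ, p.Prime → p ∣ m ^ 2 + 1 → w ≤ p

open Classical in
/-- The number of the integers in `(M, M + H]` that are terms of an `l`-term arithmetic progression in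
`(M, M + H]`, with difference at most `D`, of integers `m` with `Arg e r w m`. -/
noncomputable def inProgressions (e : Bool) (r : ℕ) (w : ℝ) (l : ℕ) (D : ℝ) (M H : ℕ) : ℕ :=
  ((Ioc M (M + H)).filter (fun n : ℕ => ∃ u d : ℕ, 1 ≤ d ∧ (d : ℝ) ≤ D ∧
    (∀ i < l, Arg e r w (u + i * d) ∧ M < u + i * d ∧ u + i * d ≤ M + H) ∧
    ∃ i < l, n = u + i * d)).card

lemma arg_of {e : Bool} {r : ℕ} {w : ℝ} {M H m : ℕ}
    (hm : m ∈ Pool.Agent.T2H62.Comp.gP (Pool.Agent.T2H62.CompAB.Fam e) (Pool.Agent.T2H62.CompAB.cc e) r w M H) :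
    Arg e r w m ∧ M < m ∧ m ≤ M + H := by
  classical
  unfold Pool.Agent.T2H62.Comp.gP at hm
  obtain ⟨hm1, hm2⟩ := mem_filter.1 hm
  unfold Pool.Agent.Y882.SI.gset at hm1
  rw [mem_filter, mem_Ioc] at hm1
  obtain ⟨h1, h2, h3⟩ := hm1
  refine ⟨?_, h1⟩
  unfold Arg
  unfold Pool.Agent.T2H62.CompAB.Fam at hm2
  cases e
  · simp only [Pool.Agent.T2H62.CompAB.cc, Bool.false_eq_true, if_false] at hm2 h2 h3 ⊢
    refine ⟨hm2, ?_, fun p hp hd => h3 p hp (by exact_mod_cast hd)⟩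
    have e : ((m : ℤ) ^ 2 + 1).natAbs = m ^ 2 + 1 := by
      have : (m : ℤ) ^ 2 + 1 = ((m ^ 2 + 1 : ℕ) : ℤ) := by push_cast; ring
      rw [this, Int.natAbs_natCast]
    rwa [e] at h2
  · simp only [Pool.Agent.T2H62.CompAB.cc, if_true] at hm2 h2 h3 ⊢
    refine ⟨hm2, ?_, fun p hp hd => h3 p hp (by exact_mod_cast hd)⟩
    have e : ((m : ℤ) ^ 2 + 4).natAbs = m ^ 2 + 4 := by
      have : (m : ℤ) ^ 2 + 4 = ((m ^ 2 + 4 : ℕ) : ℤ) := by push_cast; ring
      rw [this, Int.natAbs_natCast]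
    rwa [e] at h2

open Classical in
/-- **Progressions of almost primes of either family in almost all short intervals.** Let `r = 5`,
`1 / 2 ≤ t < 1`, `z = 2 t / 5`, or `r = 4`, `269 / 500 ≤ t < 1`, `z = t / 4`, or `r = 3`,
`29 / 40 ≤ t < 1`, `z = t / 4`. Let `0 < h ≤ t`, `ε > 0` and `l ≥ 2`. For `e = false` (`m ^ 2 + 1`, `m = 2 q n`,
Ankeny, Chowla, Hasse) and for `e = true` (`m ^ 2 + 4`, `m = (2 n + 1) q`, Lang) there are `δ > 0` and `B` such that,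
for all large `X` and all but at most `X ^ (2 t - h + ε)` of the integers `1 ≤ M ≤ X`, the interval
`(M, M + X ^ h]` contains at least `δ X ^ h / log X` integers that are terms of `l`-term arithmetic
progressions in this interval, with difference at most `(log X) ^ B`, of integers `m` with `Arg e r (X ^ z) m`. -/
theorem result (e : Bool) (r : ℕ) (t z : ℝ)
    (hpar : (r = 5 ∧ 1 / 2 ≤ t ∧ z = 2 / 5 * t) ∨ (r = 4 ∧ 269 / 500 ≤ t ∧ z = t / 4) ∨
      (r = 3 ∧ 29 / 40 ≤ t ∧ z = t / 4)) (ht : t < 1) (h ε : ℝ) (hh : 0 < h) (hht : h ≤ t)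
    (hε : 0 < ε) (l : ℕ) (hl : 2 ≤ l) :
    ∃ δ : ℝ, 0 < δ ∧ ∃ B : ℕ, ∀ᶠ X : ℕ in atTop,
      (((Icc 1 X).filter (fun M : ℕ =>
        (inProgressions e r ((X : ℝ) ^ z) l (Real.log X ^ B) M ⌊(X : ℝ) ^ h⌋₊ : ℝ) <
        δ * ((X : ℝ) ^ h / Real.log X))).card : ℝ) ≤ (X : ℝ) ^ (2 * t - h + ε) := by
  obtain ⟨δ, hδ, B, hB⟩ := Pool.Agent.T2H62.CompAB.main e r t z hpar ht h ε hh hht hε l hl
  refine ⟨δ, hδ, B, ?_⟩
  filter_upwards [hB] with X hX
  refine le_trans ?_ hX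
  norm_cast
  apply card_le_card
  intro M hM
  rw [mem_filter] at hM ⊢
  refine ⟨hM.1, lt_of_le_of_lt ?_ hM.2⟩
  norm_cast
  unfold Pool.Agent.T2H62.Comp.cnt inProgressions
  apply card_le_card
  intro n hn
  rw [mem_filter] at hn ⊢
  have hn1 := arg_of hn.1
  refine ⟨mem_Ioc.2 hn1.2, ?_⟩
  obtain ⟨u, d, h1, h2, h3, h4⟩ := hn.2
  exact ⟨u, d, h1, h2, fun i hi => arg_of (h3 i hi).1, h4⟩

end Pool.Agent.Results.MP_4b1228_nt.AlmostPrimeProgressions
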