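import Pool.Agent.R498.MT.QSys

set_option autoImplicit false

/-!
# Clusters of almost primes in both families, simultaneously

`val false q n = (2 q n) ^ 2 + 1` (the family of Ankeny, Chowla and Hasse) and
`val true q n = ((2 n + 1) q) ^ 2 + 4` (the family of Lang).
-/

namespace Pool.Agent.Results.MP_4b1228_nt.ClustersBothFamilies

open Filter Polynomial

/-- the numbers of the two families -/
def val (e : Bool) (q n : ℕ) : ℕ := if e then ((2 * n + 1) * q) ^ 2 + 4 else (2 * q * n) ^ 2 + 1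

/-- `n` is a product of at most `r` primes, counted with multiplicity, all of them at least `w`. -/
def AlmostPrime (r : ℕ) (w : ℝ) (n : ℕ) : Prop :=
  n.primeFactorsList.length ≤ r ∧ ∀ p : ℕ, p.Prime → p ∣ n → w ≤ p

/-- the coefficients -/
def cA (q : ℕ) : ℤ := 4 * (q : ℤ) ^ 2

def cB (e : Bool) (q : ℕ) : ℤ := if e then 4 * (q : ℤ) ^ 2 else 0

def cC (e : Bool) (q : ℕ) : ℤ := if e then (q : ℤ) ^ 2 + 4 else 1

lemma val_eq (e : Bool) (q n : ℕ) : ((val e q n : ℕ) : ℤ) = cA q * (n : ℤ) ^ 2 + cB e q * n + cC e q := by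
  unfold val cA cB cC
  cases e
  · simp only [Bool.false_eq_true, if_false]
    push_cast
    ring
  · simp only [if_true]
    push_cast
    ring

/-- the polynomial of the family -/
noncomputable def pol (e : Bool) (q : ℕ) : ℤ[X] := C (cA q) * X ^ 2 + C (cB e q) * X + C (cC e q)

lemma pol_eval (e : Bool) (q : ℕ) (x : ℤ) : (pol e q).eval x = cA q * x ^ 2 + cB e q * x + cC e q := by
  unfold pol
  simp

lemma disc (e : Bool) (q : ℕ) (hq : q.Prime) : ¬ IsSquare (cB e q ^ 2 - 4 * cA q * cC e q) := by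
  have hq0 : (0 : ℤ) < q := by exact_mod_cast hq.pos
  rintro ⟨r, hr⟩
  have h1 : 0 ≤ r * r := mul_self_nonneg r
  have h2 : cB e q ^ 2 - 4 * cA q * cC e q < 0 := by
    unfold cA cB cC
    cases e
    · simp only [Bool.false_eq_true, if_false]
      nlinarith [sq_nonneg (q : ℤ), pow_pos hq0 2]
    · simp only [if_true]
      have : (4 * (q : ℤ) ^ 2) ^ 2 - 4 * (4 * (q : ℤ) ^ 2) * ((q : ℤ) ^ 2 + 4) = -(64 * (q : ℤ) ^ 2) := by ring
      rw [this]
      have := pow_pos hq0 2
      linarith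
  omega

lemma adm (e : Bool) (q : ℕ) (hq : q.Prime) (hq2 : q ≠ 2) (p : ℕ) (hp : p.Prime) :
    ∃ n : ℤ, ¬ (p : ℤ) ∣ (cA q * n ^ 2 + cB e q * n + cC e q) * (pol (!e) q).eval n := by
  have hpz : Prime (p : ℤ) := Nat.prime_iff_prime_int.1 hp
  -- both forms
  have key : ∀ n : ℤ, (cA q * n ^ 2 + cB e q * n + cC e q) * (pol (!e) q).eval n =
      ((2 * q * n) ^ 2 + 1) * (((2 * n + 1) * q) ^ 2 + 4) := by
    intro n
    rw [pol_eval]
    unfold cA cB cC
    cases e
    · simp only [Bool.false_eq_true, if_false, Bool.not_false, if_true]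
      ring
    · simp only [Bool.false_eq_true, if_false, Bool.not_true, if_true]
      ring
  have hqodd : (q : ℤ) % 2 = 1 := by
    rcases hq.eq_two_or_odd with h | h
    · exact absurd h hq2
    · omega
  by_contra hcon
  push Not at hcon
  simp only [key] at hcon
  have c0 := hcon 0
  have c1 := hcon 1
  have cm := hcon (-1)
  have c2 := hcon 2
  by_cases h2 : p = 2
  · subst h2
    have : ((2 * (q : ℤ) * 0) ^ 2 + 1) * (((2 * 0 + 1) * q) ^ 2 + 4) = (q : ℤ) ^ 2 + 4 := by ring
    rw [this] at c0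
    obtain ⟨k, hk⟩ : ∃ k : ℤ, (q : ℤ) = 2 * k + 1 := ⟨(q : ℤ) / 2, by omega⟩
    rw [hk] at c0
    have h3 : ((2 * k + 1) ^ 2 + 4 : ℤ) = 2 * (2 * k ^ 2 + 2 * k + 2) + 1 := by ring
    rw [h3] at c0
    push_cast at c0
    omega
  · -- p odd
    by_cases hpq : p = q
    · subst hpq
      have h5 : ((2 * (p : ℤ) * 0) ^ 2 + 1) * (((2 * 0 + 1) * p) ^ 2 + 4) = (p : ℤ) * p + 4 := by ring
      rw [h5] at c0
      have h6 : (p : ℤ) ∣ 4 := (dvd_add_right (dvd_mul_right _ _)).1 c0
      have h7 : p ∣ 4 := by exact_mod_cast h6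
      have h8 : p ∣ 2 ^ 2 := by simpa using h7
      exact h2 ((Nat.prime_dvd_prime_iff_eq hp Nat.prime_two).1 (hp.dvd_of_dvd_pow h8))
    · -- p does not divide 2 q
      have hp2q : ¬ (p : ℤ) ∣ 2 * q := by
        intro h
        rcases hpz.dvd_or_dvd h with h | h
        · have : p ∣ 2 := by exact_mod_cast h
          exact h2 ((Nat.prime_dvd_prime_iff_eq hp Nat.prime_two).1 this)
        · have : p ∣ q := by exact_mod_cast h
          exact hpq ((Nat.prime_dvd_prime_iff_eq hp hq).1 this)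
      by_cases h3 : p = 3
      · subst h3
        have hq3 : ¬ (3 : ℤ) ∣ q := fun h => hp2q (h.mul_left 2)
        have hm : (q : ℤ) % 3 = 1 ∨ (q : ℤ) % 3 = 2 := by omega
        have h5 : ((2 * (q : ℤ) * 0) ^ 2 + 1) * (((2 * 0 + 1) * q) ^ 2 + 4) = (q : ℤ) * q + 4 := by ring
        rw [h5] at c0
        push_cast at c0
        rcases hm with h | h
        · obtain ⟨k, hk⟩ : ∃ k : ℤ, (q : ℤ) = 3 * k + 1 := ⟨(q : ℤ) / 3, by omega⟩
          rw [hk] at c0
          have : ((3 * k + 1) * (3 * k + 1) + 4 : ℤ) = 3 * (3 * k * k + 2 * k + 1) + 2 := by ring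
          rw [this] at c0
          omega
        · obtain ⟨k, hk⟩ : ∃ k : ℤ, (q : ℤ) = 3 * k + 2 := ⟨(q : ℤ) / 3, by omega⟩
          rw [hk] at c0
          have : ((3 * k + 2) * (3 * k + 2) + 4 : ℤ) = 3 * (3 * k * k + 4 * k + 2) + 2 := by ring
          rw [this] at c0
          omega
      · -- at most four roots
        have h5 : 5 ≤ p := by
          have := hp.two_le
          have h4 : p ≠ 4 := fun h => by rw [h] at hp; exact absurd hp (by norm_num)
          omega
        have : Fact p.Prime := ⟨hp⟩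
        have hc : ((2 * q : ℤ) : ZMod p) ≠ 0 := fun h => hp2q ((ZMod.intCast_zmod_eq_zero_iff_dvd _ _).1 h)
        have hc2 : (4 * (q : ZMod p) ^ 2) ≠ 0 := by
          have : (4 * (q : ZMod p) ^ 2) = ((2 * q : ℤ) : ZMod p) ^ 2 := by push_cast; ring
          rw [this]
          exact pow_ne_zero 2 hc
        set P1 : (ZMod p)[X] := C (4 * (q : ZMod p) ^ 2) * X ^ 2 + C 0 * X + C 1 with hP1
        set P2 : (ZMod p)[X] := C (4 * (q : ZMod p) ^ 2) * X ^ 2 + C (4 * (q : ZMod p) ^ 2) * X +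
          C ((q : ZMod p) ^ 2 + 4) with hP2
        have d1 : P1.natDegree = 2 := natDegree_quadratic hc2
        have d2 : P2.natDegree = 2 := natDegree_quadratic hc2
        have hz : P1 * P2 = 0 := by
          apply Polynomial.eq_zero_of_natDegree_lt_card_of_eval_eq_zero (P1 * P2)
            (f := fun x : ZMod p => x) (fun x y h => h)
          · intro x
            have h6 := hcon (x.val : ℤ)
            have h7 := (ZMod.intCast_zmod_eq_zero_iff_dvd _ _).2 h6
            push_cast at h7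
            rw [ZMod.natCast_zmod_val] at h7
            rw [eval_mul, hP1, hP2]
            simp only [eval_add, eval_mul, eval_C, eval_pow, eval_X]
            refine Eq.trans ?_ h7
            ring
          · refine lt_of_le_of_lt natDegree_mul_le ?_
            rw [d1, d2, ZMod.card]
            omega
        rcases mul_eq_zero.1 hz with h | h
        · rw [h] at d1
          simp at d1
        · rw [h] at d2
          simp at d2

/-- **Almost primes in both families.** Let `q` be an odd prime, `e = false` or `e = true`. For every `m` there is `K`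
such that for every finite set `S` of at least `K` nonnegative integers there are `r` and `δ > 0`, and for every `l`
there is `B`, such that for all large `N` there are a subset `H` of `S` with `m` elements and an arithmetic progression
`n, n + d, ..., n + (l - 1) d` in `(N, N + N ^ (3 / 4)]` with difference `1 ≤ d ≤ (log N) ^ B` such that for all its
terms `x` and all `h ∈ H`: the number `val e q (x + h)` has at most three prime factors, all of them at least
`N ^ (73 / 400)`, and the number `val (not e) q (x + h)` of the other family has at most `r` prime factors, all of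
them at least `N ^ δ`. -/
theorem result (e : Bool) (q : ℕ) (hq : q.Prime) (hq2 : q ≠ 2) (m : ℕ) :
    ∃ K : ℕ, ∀ S : Finset ℕ, K ≤ S.card → ∃ (r : ℕ) (δ : ℝ), 0 < δ ∧ ∀ l : ℕ, ∃ B : ℕ,
      ∀ᶠ N : ℕ in atTop, ∃ H ⊆ S, H.card = m ∧ ∃ n d : ℕ, 1 ≤ d ∧ (d : ℝ) ≤ Real.log N ^ B ∧
      ∀ j < l, N < n + j * d ∧ ((n + j * d : ℕ) : ℝ) ≤ N + (N : ℝ) ^ (3 / 4 : ℝ) ∧
        ∀ h ∈ H, AlmostPrime 3 ((N : ℝ) ^ (73 / 400 : ℝ)) (val e q (n + j * d + h)) ∧
          AlmostPrime r ((N : ℝ) ^ δ) (val (!e) q (n + j * d + h)) := by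
  have hq0 : (q : ℤ) ≠ 0 := by exact_mod_cast hq.ne_zero
  have hpol0 : pol (!e) q ≠ 0 := by
    intro h
    have h1 := adm e q hq hq2 2 Nat.prime_two
    rw [h] at h1
    obtain ⟨n, hn⟩ := h1
    exact hn (by simp)
  obtain ⟨K, hK⟩ := Pool.Agent.R498.MT.quad_sys (cA q) (cB e q) (cC e q)
    (by unfold cA; positivity) (disc e q hq) (pol (!e) q) hpol0 (fun p hp => adm e q hq hq2 p hp) m
  refine ⟨K, fun S hS => ?_⟩
  obtain ⟨r, δ, hδ, hmain⟩ := hK S hS
  refine ⟨r, δ, hδ, fun l => ?_⟩
  obtain ⟨B, hB⟩ := hmain l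
  refine ⟨B, ?_⟩
  filter_upwards [hB] with N hN
  obtain ⟨H, hH, hHc, n, d, h1, h2, h3⟩ := hN
  refine ⟨H, hH, hHc, n, d, h1, h2, fun j hj => ?_⟩
  obtain ⟨h4, h5, h6⟩ := h3 j hj
  refine ⟨h4, h5, fun h hh => ?_⟩
  obtain ⟨g1, g2, g3, g4⟩ := h6 h hh
  rw [← val_eq, Int.natAbs_natCast] at g1
  rw [pol_eval, ← val_eq, Int.natAbs_natCast] at g3
  refine ⟨⟨g1, fun p hp hd => g2 p hp ?_⟩, ⟨g3, fun p hp hd => g4 p hp ?_⟩⟩
  · rw [← val_eq]
    exact_mod_cast hd
  · rw [pol_eval, ← val_eq]
    exact_mod_cast hd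

end Pool.Agent.Results.MP_4b1228_nt.ClustersBothFamilies
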