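import Pool.Agent.T2H62.SpAB

set_option autoImplicit false

/-!
# The numbers `(2 q n) ^ 2 + 1` and `((2 n + 1) q) ^ 2 + 4` without small prime factors, uniformly in the prime `q`
-/

namespace Pool.Agent.Results.MP_4b1228_nt.SpacingLawUniform

open Finset Filter

/-- the numbers of the two families: `(2 q n) ^ 2 + 1` for `e = false`, `((2 n + 1) q) ^ 2 + 4` for `e = true` -/
def val (e : Bool) (q : ℕ) (n : ℤ) : ℤ := if e then ((2 * n + 1) * q) ^ 2 + 4 else (2 * q * n) ^ 2 + 1

/-- `val e q n` has no prime factor `≤ y` -/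
def Rough (e : Bool) (q y n : ℕ) : Prop := ∀ p : ℕ, p.Prime → p ≤ y → ¬ (p : ℤ) ∣ val e q (n : ℤ)

open Classical in
/-- the number of the `n` in `(u, u + Y]` with `Rough e q y n` for which fewer than `k` of the `T` integers before `n`
have this property -/
noncomputable def count (e : Bool) (q y k T u Y : ℕ) : ℕ :=
  ((Ioc u (u + Y)).filter (fun n => Rough e q y n ∧
    ((Ico (n - T) n).filter (fun m => Rough e q y m)).card < k)).card

open Classical in
/-- the product over the primes `p ≤ y` of `1 - ρ(p) / p`, `ρ(p)` the number of the `n` modulo `p` for which `p` divides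
`val e q n` -/
noncomputable def De (e : Bool) (q y : ℕ) : ℝ := ∏ p ∈ (Finset.range (y + 1)).filter Nat.Prime,
    (1 - (((Finset.range p).filter (fun m : ℕ => (p : ℤ) ∣ val e q (m : ℤ))).card : ℝ) / p)

/-- For all `A`, `θ, ε > 0`, `k₀` and `x₀` there is `r₀` such that for all `r ≥ r₀`, all large `X`,
`y = ⌊X ^ (1/r)⌋`, both families `e` and ALL primes `q ≤ X ^ A` (`q` odd for the family `e = true`), every interval
`(u, u + Y]` with `Y ≥ X ^ θ` and all `k`, `T` with `k ≤ k₀` or `T · De e q y ≤ x₀`: the number of the `n` in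
`(u, u + Y]` such that `val e q n` has no prime factor `≤ y` and that fewer than `k` of the `T` integers before `n`
have this property is `Y · De e q y` times the probability that a Poisson variable with mean `T · De e q y` is smaller
than `k`, up to `ε · Y · De e q y`. (For `k = 1`, `T = 0` this is the number of all these `n`.) -/
theorem result (A : ℕ) (θ : ℝ) (hθ : 0 < θ) (k₀ : ℕ) (x₀ ε : ℝ) (hε : 0 < ε) :
    ∃ r₀ : ℕ, ∀ r : ℕ, r₀ ≤ r → ∀ᶠ X : ℕ in atTop, ∀ y : ℕ, y = ⌊(X : ℝ) ^ (1 / (r : ℝ))⌋₊ →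
      ∀ (e : Bool) (q : ℕ), q.Prime → q ≤ X ^ A → (e = true → q ≠ 2) →
      ∀ u Y : ℕ, (X : ℝ) ^ θ ≤ Y → ∀ k T : ℕ, (k ≤ k₀ ∨ T * De e q y ≤ x₀) →
        |(count e q y k T u Y : ℝ) - Y * De e q y *
          ∑ j ∈ range k, Real.exp (-(T * De e q y)) * (T * De e q y) ^ j / j.factorial| ≤
          ε * (Y * De e q y) :=
  Pool.Agent.T2H62.SpAB.law A θ hθ k₀ x₀ ε hε

end Pool.Agent.Results.MP_4b1228_nt.SpacingLawUniform
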